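import Pool.Agent.Q67.AXI.Defs2

/-!
Job AXW-7: derivative in time of the energy with weight, continuity of the dissipation.
-/

set_option autoImplicit false

open MeasureTheory Set Metric Filter Topology
open scoped ContDiff
open H459R3.NS Pool.Agent.W268.NS Pool.Agent.Q67.VD

namespace Pool.Agent.Q234.AXW.DtW

open Pool.Agent.Q85.CC Pool.Agent.Q85.CL Pool.Agent.TH305.AX Pool.Agent.Q67.AXI

lemma wt_cont {γ : ℝ} (hγ : 0 < γ) : Continuous (wt γ) := by
  unfold wt
  have h : Continuous sg := by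
    unfold sg
    fun_prop
  exact h.rpow_const (fun x => Or.inr hγ.le)

lemma opnT (T : ℝ) : IsOpen (Ioo 0 T ×ˢ (univ : Set V)) := isOpen_Ioo.prod isOpen_univ

/-- Joint smoothness of a spatial derivative. -/
lemma pd_js {T : ℝ} {f : ℝ → V → ℝ}
    (hf : ContDiffOn ℝ ∞ (fun z : ℝ × V => f z.1 z.2) (Ioo 0 T ×ˢ univ)) (j : Fin 3) :
    ContDiffOn ℝ ∞ (fun z : ℝ × V => pd j (f z.1) z.2) (Ioo 0 T ×ˢ univ) := by
  have h1 : ContDiffOn ℝ ∞ (fun z : ℝ × V => fderiv ℝ (fun z : ℝ × V => f z.1 z.2) z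
      (0, Pi.single j 1)) (Ioo 0 T ×ˢ univ) :=
    (hf.fderiv_of_isOpen (opnT T) (by norm_cast)).clm_apply contDiffOn_const
  refine h1.congr ?_
  rintro ⟨t, x⟩ ⟨ht, -⟩
  have hmem : Ioo 0 T ×ˢ (univ : Set V) ∈ 𝓝 (t, x) :=
    prod_mem_nhds (Ioo_mem_nhds ht.1 ht.2) Filter.univ_mem
  have hd : DifferentiableAt ℝ (fun z : ℝ × V => f z.1 z.2) (t, x) :=
    (hf.contDiffAt hmem).differentiableAt (by norm_cast)
  have h2 : HasFDerivAt (fun y : V => ((t, y) : ℝ × V))
      (ContinuousLinearMap.inr ℝ ℝ V) x := by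
    have := (hasFDerivAt_const t x).prodMk (hasFDerivAt_id (𝕜 := ℝ) x)
    exact this
  have h3 : HasFDerivAt (f t) _ x := hd.hasFDerivAt.comp x h2
  show pd j (f t) x = _
  unfold pd
  rw [h3.fderiv]
  rfl

/-- The time derivative. -/
lemma dt_js {T : ℝ} {f : ℝ → V → ℝ}
    (hf : ContDiffOn ℝ ∞ (fun z : ℝ × V => f z.1 z.2) (Ioo 0 T ×ˢ univ)) :
    ContinuousOn (fun z : ℝ × V => deriv (fun s => f s z.2) z.1) (Ioo 0 T ×ˢ univ) ∧
    ∀ t ∈ Ioo 0 T, ∀ x, HasDerivAt (fun s => f s x) (deriv (fun s => f s x) t) t := by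
  have key : ∀ t ∈ Ioo 0 T, ∀ x, HasDerivAt (fun s => f s x)
      (fderiv ℝ (fun z : ℝ × V => f z.1 z.2) (t, x) (1, 0)) t := by
    intro t ht x
    have hmem : Ioo 0 T ×ˢ (univ : Set V) ∈ 𝓝 (t, x) :=
      prod_mem_nhds (Ioo_mem_nhds ht.1 ht.2) Filter.univ_mem
    have hd : DifferentiableAt ℝ (fun z : ℝ × V => f z.1 z.2) (t, x) :=
      (hf.contDiffAt hmem).differentiableAt (by norm_cast)
    have h2 : HasDerivAt (fun s : ℝ => ((s, x) : ℝ × V)) (1, 0) t :=
      (hasDerivAt_id t).prodMk (hasDerivAt_const t x)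
    exact hd.hasFDerivAt.comp_hasDerivAt t h2
  constructor
  · have h1 : ContDiffOn ℝ ∞ (fun z : ℝ × V => fderiv ℝ (fun z : ℝ × V => f z.1 z.2) z
        (1, 0)) (Ioo 0 T ×ˢ univ) :=
      (hf.fderiv_of_isOpen (opnT T) (by norm_cast)).clm_apply contDiffOn_const
    refine h1.continuousOn.congr ?_
    rintro ⟨t, x⟩ ⟨ht, -⟩
    exact (key t ht x).deriv
  · intro t ht x
    rw [(key t ht x).deriv]
    exact key t ht x

theorem dtW : StmDtW := by
  intro γ T f φ hγ hf hφ hφc
  have hw := wt_cont hγ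
  obtain ⟨hdt, hdt'⟩ := dt_js hf
  constructor
  · have hG : ContDiffOn ℝ ∞ (fun z : ℝ × V => φ z.2 * f z.1 z.2) (Ioo 0 T ×ˢ univ) :=
      ((hφ.comp contDiff_snd).contDiffOn).mul hf
    have hc : ContinuousOn (fun z : ℝ × V => wt γ z.2 * gr2 (fun x => φ x * f z.1 x) z.2)
        (Ioo 0 T ×ˢ univ) := by
      refine (hw.comp continuous_snd).continuousOn.mul ?_
      exact continuousOn_finsetSum _ fun i _ =>
        ((pd_js (f := fun t x => φ x * f t x) hG i).continuousOn).pow 2
    refine continuousOn_integral_of_compact_support (k := tsupport φ) hφc hc ?_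
    intro t x _ hx
    have h0 : (fun x => φ x * f t x) =ᶠ[𝓝 x] fun _ => 0 := by
      filter_upwards [notMem_tsupport_iff_eventuallyEq.1 hx] with y hy
      rw [hy]
      simp
    have h1 : ∀ i, pd i (fun x => φ x * f t x) x = 0 := by
      intro i
      unfold pd
      rw [h0.fderiv_eq]
      simp
    show wt γ x * gr2 (fun x => φ x * f t x) x = 0
    unfold gr2
    simp [h1]
  · intro t ht
    obtain ⟨ε, hε, hsub⟩ := Metric.isOpen_iff.1 (isOpen_Ioo (a := (0 : ℝ)) (b := T)) t ht
    have hsub2 : Icc (t - ε / 2) (t + ε / 2) ⊆ Ioo 0 T := by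
      intro s hs
      apply hsub
      rw [mem_ball, Real.dist_eq, abs_lt]
      constructor <;> linarith [hs.1, hs.2]
    have hfc : ∀ s ∈ Ioo 0 T, Continuous (f s) := by
      intro s hs
      have h1 : ContinuousOn (fun x : V => ((s, x) : ℝ × V)) univ :=
        (Continuous.prodMk_right s).continuousOn
      have h2 := hf.continuousOn.comp h1 (fun x _ => ⟨hs, mem_univ _⟩)
      exact continuousOn_univ.1 h2
    have hF' : ContinuousOn (fun z : ℝ × V => 2 * wt γ z.2 * φ z.2 ^ 2 * f z.1 z.2 *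
        deriv (fun s => f s z.2) z.1) (Ioo 0 T ×ˢ univ) := by
      have h1 : Continuous (fun z : ℝ × V => 2 * wt γ z.2 * φ z.2 ^ 2) :=
        ((continuous_const.mul (hw.comp continuous_snd))).mul
          ((hφ.continuous.comp continuous_snd).pow 2)
      exact (h1.continuousOn.mul hf.continuousOn).mul hdt
    have hF'x : ∀ s ∈ Ioo 0 T, Continuous (fun x : V => 2 * wt γ x * φ x ^ 2 * f s x *
        deriv (fun s => f s x) s) := by
      intro s hs
      have h1 : ContinuousOn (fun x : V => ((s, x) : ℝ × V)) univ :=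
        (Continuous.prodMk_right s).continuousOn
      have h2 := hF'.comp h1 (fun x _ => ⟨hs, mem_univ _⟩)
      exact continuousOn_univ.1 h2
    have hKc : IsCompact (Icc (t - ε / 2) (t + ε / 2) ×ˢ tsupport φ) := isCompact_Icc.prod hφc
    obtain ⟨C, hC⟩ := hKc.exists_bound_of_continuousOn
      (hF'.mono (prod_mono hsub2 (subset_univ _)))
    have hφ0 : ∀ x, x ∉ tsupport φ → φ x = 0 := fun x hx => image_eq_zero_of_notMem_tsupport hx
    refine (hasDerivAt_integral_of_dominated_loc_of_deriv_le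
      (F := fun s x => wt γ x * (φ x ^ 2 * f s x ^ 2))
      (F' := fun s x => 2 * wt γ x * φ x ^ 2 * f s x * deriv (fun s => f s x) s)
      (s := Icc (t - ε / 2) (t + ε / 2))
      (bound := (tsupport φ).indicator (fun _ => C))
      (Icc_mem_nhds (by linarith) (by linarith)) ?_ ?_ ?_ ?_ ?_ ?_).2
    · filter_upwards [Ioo_mem_nhds ht.1 ht.2] with s hs
      exact (hw.mul ((hφ.continuous.pow 2).mul ((hfc s hs).pow 2))).aestronglyMeasurable
    · refine Continuous.integrable_of_hasCompactSupport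
        (hw.mul ((hφ.continuous.pow 2).mul ((hfc t ht).pow 2))) ?_
      refine HasCompactSupport.intro hφc fun x hx => ?_
      rw [hφ0 x hx]
      simp
    · exact (hF'x t ht).aestronglyMeasurable
    · refine Filter.Eventually.of_forall fun x s hs => ?_
      by_cases hx : x ∈ tsupport φ
      · rw [indicator_of_mem hx]
        exact hC (s, x) ⟨hs, hx⟩
      · rw [indicator_of_notMem hx, hφ0 x hx]
        simp
    · exact (integrable_indicator_iff (isClosed_tsupport φ).measurableSet).2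
        (integrableOn_const hφc.measure_lt_top.ne)
    · refine Filter.Eventually.of_forall fun x s hs => ?_
      have h1 := hdt' s (hsub2 hs) x
      have h2 := ((h1.pow 2).const_mul (φ x ^ 2)).const_mul (wt γ x)
      refine h2.congr_deriv ?_
      simp only [Nat.cast_ofNat, Nat.reduceSub, pow_one]
      ring

end Pool.Agent.Q234.AXW.DtW
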